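import Pool.Agent.Lib.MP_bdcdc5_co.AAMain
import Pool.Prelude.Def_F_58bd55a0

/-!
# Sets with a model in a short interval: the constant is 1 at almost all scales

`R k N` is the largest size of a subset of `{1, …, N}` without `k`-term arithmetic progressions (the
definition used by the frozen statements) and `S.maxAPFreeCard k` is the largest size of a subset of
`S` without `k`-term arithmetic progressions.

For every `ε > 0` there is `C` such that for all `k ≥ 3`, `K ≥ 1`, `X ≥ 2` the integers `N ≤ X` for
which some set `S` of `N` integers with a model in an interval of length `K N` has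
`S.maxAPFreeCard k < (1 - ε) R k N` satisfy `∑ 1 / N ≤ C (1 + log K) √(log X)`.
-/

set_option autoImplicit false

namespace Pool.Agent.Results.MP_bdcdc5_co.AlmostAllScales

open Finset Real

/-- `S` has a model in an interval of length `L`: there is a map `f : ℤ → ℤ`, injective on `S`, whose
values on `S` differ by at most `L`, and which preserves the relations `x + z = 2 y` between elements
of `S`. Every set contained in an interval of length `L` has such a model (take `f = id`). -/
def HasModel (S : Finset ℤ) (L : ℝ) : Prop :=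
  ∃ f : ℤ → ℤ, Set.InjOn f S ∧
    (∀ x ∈ S, ∀ y ∈ S, ∀ z ∈ S, x + z = 2 * y → f x + f z = 2 * f y) ∧
    ∀ x ∈ S, ∀ y ∈ S, ((f x - f y : ℤ) : ℝ) ≤ L

open Classical in
theorem result (ε : ℝ) (hε : 0 < ε) :
    ∃ C : ℝ, 0 < C ∧ ∀ k : ℕ, 3 ≤ k → ∀ K : ℝ, 1 ≤ K → ∀ X : ℕ, 2 ≤ X →
      ∑ N ∈ (Icc 1 X).filter (fun N : ℕ => ∃ S : Finset ℤ, S.card = N ∧ HasModel S (K * N) ∧
        (S.maxAPFreeCard k : ℝ) < (1 - ε) * Nb572fa8d.R k N), (1 : ℝ) / N ≤
      C * (1 + log K) * √(log X) :=
  Pool.Agent.MPbdcdc5.AA.short_main ε hε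

end Pool.Agent.Results.MP_bdcdc5_co.AlmostAllScales
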