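import Pool.Agent.Lib.MP_bdcdc5_co.Main
import Pool.Prelude.Def_F_58bd55a0

/-!
# The interval and the worst set of the same size differ by a factor of at most about four

`R k N` is the largest size of a subset of `{1, …, N}` without `k`-term arithmetic progressions,
`G k N` is the minimum, over all sets `S` of `N` integers, of the largest size of a subset of `S`
without `k`-term arithmetic progressions (both are the definitions used by the frozen statements).
For all `k ≥ 3` and all `N` we prove
`(1 / 4 - 1 / (64 (k - 1))) * R k N ≤ G k N`; for `k = 3` this is `R 3 N ≤ (128 / 31) * G 3 N`.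
-/

set_option autoImplicit false

namespace Pool.Agent.Results.MP_bdcdc5_co.FactorFour

theorem result (k N : ℕ) (hk : 3 ≤ k) :
    ((1 : ℝ) / 4 - 1 / (64 * ((k : ℝ) - 1))) * (Nb572fa8d.R k N : ℝ) ≤ (Nb572fa8d.G k N : ℝ) :=
  Pool.Agent.MPbdcdc5.main k N hk

end Pool.Agent.Results.MP_bdcdc5_co.FactorFour
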