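import Mathlib
import Pool.Prelude.Def_F_58bd55a0
import Pool.Agent.Lib.MP_bdcdc5_co.NINear

/-!
# Sets of `N` integers in an interval of length `N + D`, for all `N`

`R k N` is the largest size of a subset of `{1, ..., N}` without `k`-term arithmetic progressions (the definition used by the
frozen statements) and `S.maxAPFreeCard k` is the largest size of a subset of `S` without `k`-term arithmetic progressions.

If the `N`-element set `S` has a model in an interval of `N + D` integers, then `R k N ≤ S.maxAPFreeCard k + R k D`, and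
`(R k m - 1) R k N ≤ R k m S.maxAPFreeCard k` for all `m ≥ 1` with `(2 m - 1) D ≤ N`.
-/

set_option autoImplicit false

namespace Pool.Agent.Results.MP_bdcdc5_co.NearInterval

/-- `S` has a model in an interval of `L` integers: there is a map `f : ℤ → ℤ`, injective on `S`, whose values on `S` lie in a
set of `L` consecutive integers, and which preserves the relations `x + z = 2 y` between elements of `S`.  Every set contained
in an interval of `L` integers has such a model (take `f = id`). -/
def HasModel (S : Finset ℤ) (L : ℕ) : Prop :=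
  ∃ f : ℤ → ℤ, Set.InjOn f S ∧
    (∀ x ∈ S, ∀ y ∈ S, ∀ z ∈ S, x + z = 2 * y → f x + f z = 2 * f y) ∧
    ∃ a : ℤ, ∀ x ∈ S, a ≤ f x ∧ f x < a + L

theorem result (k : ℕ) (hk : 3 ≤ k) (S : Finset ℤ) (D : ℕ) (hS : HasModel S (S.card + D)) :
    Nb572fa8d.R k S.card ≤ S.maxAPFreeCard k + Nb572fa8d.R k D ∧
      ∀ m : ℕ, 1 ≤ m → (2 * m - 1) * D ≤ S.card →
        ((Nb572fa8d.R k m : ℝ) - 1) * Nb572fa8d.R k S.card ≤ Nb572fa8d.R k m * S.maxAPFreeCard k := by
  obtain ⟨f, h1, h2, a, h3⟩ := hS
  have h4 : Nb572fa8d.R k S.card ≤ S.maxAPFreeCard k + Nb572fa8d.R k D := by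
    refine MP_bdcdc5.NI.near_interval hk S (fun x => f x - a + 1) ?_ ?_ D ?_
    · intro x hx y hy hxy
      have : f x - a + 1 = f y - a + 1 := hxy
      exact h1 hx hy (by linarith)
    · intro x hx y hy z hz h
      have := h2 x hx y hy z hz h
      show f x - a + 1 + (f z - a + 1) = 2 * (f y - a + 1)
      linarith
    · intro x hx
      have := h3 x hx
      push_cast at this
      show 1 ≤ f x - a + 1 ∧ f x - a + 1 ≤ S.card + D
      omega
  refine ⟨h4, ?_⟩
  intro m hm hD
  have h5 := MP_bdcdc5.NI.R_super hk m D hm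
  have h6 := MP_bdcdc5.NI.R_mono (by omega : 2 ≤ k) hD
  have h7 : Nb572fa8d.R k m * Nb572fa8d.R k D ≤ Nb572fa8d.R k S.card := h5.trans h6
  have h8 : (Nb572fa8d.R k m : ℝ) * Nb572fa8d.R k D ≤ Nb572fa8d.R k S.card := by exact_mod_cast h7
  have h9 : (Nb572fa8d.R k S.card : ℝ) ≤ S.maxAPFreeCard k + Nb572fa8d.R k D := by exact_mod_cast h4
  have h10 : (0 : ℝ) ≤ Nb572fa8d.R k m := by positivity
  nlinarith

end Pool.Agent.Results.MP_bdcdc5_co.NearInterval
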